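import Pool.Agent.helper12.BE.Spec
import Pool.Agent.helper33.BE.Lists

/-!
# Coverage of all multisets with small parts by tiles and finitely many exceptions

`srch` is a tree search over non-increasing lists (written with recursors, for the kernel).
-/

namespace Pool.Agent.helper33.BE

open Pool.Agent.helper9.SV

/-- the non-increasing list `p` is a sublist of the non-increasing list `l` -/
noncomputable def subl (l : List ℕ) : List ℕ → Bool :=
  List.rec (motive := fun _ => List ℕ → Bool)
    (fun p => List.rec true (fun _ _ _ => false) p)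
    (fun b _ ih p => List.rec true (fun a t _ => cond (Nat.beq a b) (ih t) (ih p)) p) l

theorem subl_spec : ∀ {l p : List ℕ}, subl l p = true → p.Sublist l := by
  intro l
  induction l with
  | nil =>
    intro p h
    cases p with
    | nil => exact List.Sublist.refl _
    | cons a t => exact absurd h (by simp [subl])
  | cons b l ih =>
    intro p h
    cases p with
    | nil => exact List.nil_sublist _
    | cons a t =>
      have h' : cond (Nat.beq a b) (subl l t) (subl l (a :: t)) = true := h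
      by_cases h1 : Nat.beq a b = true
      · rw [h1, cond_true] at h'
        rw [Nat.eq_of_beq_eq_true h1]
        exact (ih h').cons_cons b
      · rw [Bool.not_eq_true] at h1
        rw [h1, cond_false] at h'
        exact (ih h').cons b

/-- some element of `ts` is a sublist of `l` -/
noncomputable def anyS (l : List ℕ) (ts : List (List ℕ)) : Bool :=
  List.rec false (fun t _ ih => cond (subl l t) true ih) ts

theorem anyS_spec {l : List ℕ} {ts : List (List ℕ)} (h : anyS l ts = true) :
    ∃ t ∈ ts, t.Sublist l := by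
  induction ts with
  | nil => exact absurd h (by simp [anyS])
  | cons t ts ih =>
    have h' : cond (subl l t) true (anyS l ts) = true := h
    by_cases h1 : subl l t = true
    · exact ⟨t, List.mem_cons_self, subl_spec h1⟩
    · rw [Bool.not_eq_true] at h1
      rw [h1, cond_false] at h'
      obtain ⟨t', ht', hs⟩ := ih h'
      exact ⟨t', List.mem_cons_of_mem _ ht', hs⟩

/-- the loop over the rows of the table -/
noncomputable def loopS (f : List (ℕ × List (List ℕ)) → List ℕ → Bool) (l : List ℕ)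
    (T : List (ℕ × List (List ℕ))) : Bool :=
  List.rec true (fun hd tl ihl =>
    Bool.and (cond (anyS l hd.2) true (f (hd :: tl) (hd.1 :: l))) ihl) T

theorem loopS_cons (f : List (ℕ × List (List ℕ)) → List ℕ → Bool) (l : List ℕ)
    (hd : ℕ × List (List ℕ)) (tl : List (ℕ × List (List ℕ))) :
    loopS f l (hd :: tl) =
      (cond (anyS l hd.2) true (f (hd :: tl) (hd.1 :: l)) && loopS f l tl) := rfl

/-- tree search: the next part is the head of one of the rows of `T` -/
noncomputable def srch (q : List ℕ → Bool) (fuel : ℕ) :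
    List (ℕ × List (List ℕ)) → List ℕ → Bool :=
  Nat.rec (fun _ _ => false) (fun _ ih T l => Bool.and (q l) (loopS ih l T)) fuel

theorem srch_succ (q : List ℕ → Bool) (fuel : ℕ) (T : List (ℕ × List (List ℕ)))
    (l : List ℕ) : srch q (fuel + 1) T l = (q l && loopS (srch q fuel) l T) := rfl

theorem loopS_spec {f : List (ℕ × List (List ℕ)) → List ℕ → Bool} {l : List ℕ}
    {T1 : List (ℕ × List (List ℕ))} {hd : ℕ × List (List ℕ)}
    {T2 : List (ℕ × List (List ℕ))} (h : loopS f l (T1 ++ hd :: T2) = true) :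
    anyS l hd.2 = true ∨ f (hd :: T2) (hd.1 :: l) = true := by
  induction T1 with
  | nil =>
    rw [List.nil_append, loopS_cons, Bool.and_eq_true] at h
    by_cases h1 : anyS l hd.2 = true
    · exact Or.inl h1
    · rw [Bool.not_eq_true] at h1
      rw [h1, cond_false] at h
      exact Or.inr h.1
  | cons a T1 ih =>
    rw [List.cons_append, loopS_cons, Bool.and_eq_true] at h
    exact ih h.2

theorem srch_spec (q : List ℕ → Bool) :
    ∀ (s : List ℕ) (fuel : ℕ) (T : List (ℕ × List (List ℕ))) (l : List ℕ),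
      srch q fuel T l = true → s.Pairwise (· ≤ ·) → T.Pairwise (fun a b => a.1 < b.1) →
      (∀ x ∈ s, ∃ ts, (x, ts) ∈ T) →
      (∀ x ts, (x, ts) ∈ T → ∀ t ∈ ts, ¬ (x :: t).Sublist (s.reverse ++ l)) →
      q (s.reverse ++ l) = true := by
  intro s
  induction s with
  | nil =>
    intro fuel T l h _ _ _ _
    cases fuel with
    | zero => exact absurd h (by simp [srch])
    | succ fuel =>
      rw [srch_succ, Bool.and_eq_true] at h
      simpa using h.1
  | cons x s ih =>
    intro fuel T l h hs hT hx hfree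
    cases fuel with
    | zero => exact absurd h (by simp [srch])
    | succ fuel =>
      rw [srch_succ, Bool.and_eq_true] at h
      obtain ⟨ts, hts⟩ := hx x (by simp)
      obtain ⟨T1, T2, rfl⟩ := List.append_of_mem hts
      have hl : (x :: s).reverse ++ l = s.reverse ++ x :: l := by simp
      rw [hl] at hfree ⊢
      rcases loopS_spec h.2 with h2 | h2
      · exfalso
        obtain ⟨t, ht, hsub⟩ := anyS_spec h2
        exact hfree x ts hts t ht ((hsub.cons_cons x).trans (List.sublist_append_right _ _))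
      · rw [List.pairwise_cons] at hs
        rw [List.pairwise_append] at hT
        refine ih fuel ((x, ts) :: T2) (x :: l) h2 hs.2 hT.2.1 ?_ ?_
        · intro y hy
          obtain ⟨ts', hts'⟩ := hx y (List.mem_cons_of_mem _ hy)
          refine ⟨ts', ?_⟩
          rcases List.mem_append.1 hts' with h3 | h3
          · exfalso
            have h4 := hT.2.2 _ h3 (x, ts) (by simp)
            have h5 := hs.1 y hy
            simp only at h4
            omega
          · exact h3
        · intro y ts' hts'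
          exact hfree y ts' (List.mem_append_right _ hts')

/-- the minimal tiles, sorted by the largest part (which is removed) -/
def tbl : List (ℕ × List (List ℕ)) :=
  [
  (3, [[3, 3]]),
  (4, [[4, 4, 4, 4, 4]]),
  (5, [[5, 5, 4, 4, 4, 3], [5, 4, 4, 4, 4, 4, 3], [5, 5, 5, 4, 4, 4, 4], [5, 5, 5, 5, 5, 3, 3],
    [5, 5, 5, 5, 4, 4, 3, 3], [5, 5, 5, 5, 5, 5, 4], [5, 5, 5, 5, 5, 4, 4, 4], [5, 5, 5, 5, 5, 5,
    5, 5, 5, 5, 5]]),
  (6, [[6, 3], [5, 4, 3, 3], [5, 5, 4, 4], [6, 4, 4, 4], [6, 6, 6], [5, 4, 4, 4, 4], [5, 5, 5, 3,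
    3], [6, 5, 5, 5], [6, 6, 5, 4], [5, 5, 5, 5, 4], [5, 5, 5, 5, 5, 5]]),
  (7, [[4, 4, 3, 3], [5, 4, 4, 4], [5, 5, 4, 3], [6, 5, 3, 3], [6, 6, 5], [7, 5, 5], [7, 6, 4],
    [6, 5, 5, 4], [6, 6, 4, 4], [7, 5, 4, 4], [7, 7, 3, 3], [7, 7, 6], [4, 4, 4, 4, 4, 3], [5, 5,
    5, 4, 4], [5, 5, 5, 5, 3], [7, 4, 4, 4, 4], [7, 7, 5, 4], [6, 4, 4, 4, 4, 4], [6, 5, 5, 5, 5],
    [7, 7, 4, 4, 4], [7, 7, 7, 5], [5, 5, 5, 5, 5, 4], [7, 7, 7, 4, 4], [7, 7, 7, 7, 4], [7, 7, 7,
    7, 7]]),
  (8, [[7, 3, 3], [8, 5], [4, 4, 4, 4], [5, 5, 3, 3], [6, 4, 3, 3], [6, 5, 5], [6, 6, 4], [7, 5,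
    4], [7, 6, 3], [8, 4, 4], [8, 8], [5, 4, 4, 3, 3], [5, 5, 5, 4], [6, 5, 4, 4], [7, 4, 4, 4],
    [7, 6, 6], [7, 7, 5], [8, 7, 4], [5, 5, 4, 4, 4], [7, 5, 5, 5], [7, 7, 4, 4], [8, 7, 7], [7,
    7, 7, 4], [5, 5, 5, 5, 5, 3], [7, 7, 7, 7]]),
  (9, [[]]),
  (10, [[5, 3, 3], [6, 5], [7, 4], [4, 4, 3, 3], [5, 5, 4], [6, 4, 4], [7, 7], [8, 3, 3], [8, 6],
    [10, 4], [5, 4, 4, 4], [7, 5, 5], [8, 5, 4], [10, 7], [4, 4, 4, 4, 4], [5, 5, 5, 5], [8, 4, 4,
    4], [8, 7, 5], [8, 8, 4], [10, 5, 5], [10, 10], [8, 5, 5, 5], [8, 8, 7], [10, 8, 5], [10, 8,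
    8]]),
  (11, [[4, 3, 3], [5, 5], [10], [5, 4, 4], [6, 4, 3], [7, 3, 3], [7, 6], [8, 5], [4, 4, 4, 4],
    [6, 6, 4], [7, 5, 4], [8, 4, 4], [8, 8], [11, 5], [7, 4, 4, 4], [7, 7, 5], [8, 7, 4], [11, 4,
    4], [11, 8], [7, 7, 4, 4], [8, 7, 7], [11, 7, 4], [11, 11], [7, 7, 7, 4], [11, 7, 7], [7, 7,
    7, 7]]),
  (12, [[3], [5, 4], [4, 4, 4], [6, 6], [7, 5], [8, 4], [12], [5, 5, 5], [7, 4, 4], [8, 7], [10,
    5], [11, 4], [7, 7, 4], [8, 5, 5], [10, 4, 4], [10, 8], [11, 7], [7, 7, 7]]),
  (13, [[4, 4], [8], [5, 3, 3], [6, 5], [7, 4], [11], [5, 5, 4], [7, 7], [10, 4], [7, 5, 5], [10,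
    7], [12, 5], [13, 4], [5, 5, 5, 5], [10, 5, 5], [10, 10], [13, 7], [13, 5, 5], [13, 10], [13,
    13]]),
  (14, [[7], [4, 3, 3], [5, 5], [6, 4], [10], [5, 4, 4], [8, 5], [13], [4, 4, 4, 4], [8, 4, 4],
    [8, 8], [11, 5], [12, 4], [11, 4, 4], [11, 8], [14, 5], [11, 11], [14, 4, 4], [14, 8], [14,
    11], [14, 14]]),
  (15, [[3, 3], [6], [5, 4], [4, 4, 4], [7, 5], [8, 4], [12], [5, 5, 5], [7, 4, 4], [8, 7], [10,
    5], [11, 4], [15], [7, 7, 4], [8, 5, 5], [10, 4, 4], [10, 8], [11, 7], [13, 5], [14, 4], [7,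
    7, 7]]),
  (16, [[5], [4, 4], [8], [7, 4], [11], [7, 7], [10, 4], [14], [10, 7], [13, 4], [10, 10], [13,
    7], [16, 4], [13, 10], [16, 7], [13, 13], [16, 10], [16, 13], [16, 16]]),
  (17, [[4], [7], [5, 5], [10], [8, 5], [13], [8, 8], [11, 5], [16], [11, 8], [14, 5], [11, 11],
    [14, 8], [17, 5], [14, 11], [17, 8], [14, 14], [17, 11], [17, 14], [17, 17]])]

/-- codes of the bad lists -/
def badK : List ℕ :=
[
   268435456,
   34359738368,
   4398046511104,
   270532608,
   34361835520,
   536870912,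
   72057594037927936,
   4398048608256,
   34628173824,
   272629760,
   562949955518464,
   4398314946560,
   68719476736,
   1180591620717411303424,
   34363932672,
   538968064,
   562950221856768,
   4432406249472,
   151115727451828646838272,
   805306368,
   72057594306363392,
   562984313159680,
   8796093022208,
   19342813113834066795298816,
   34896609280,
   541065216,
   562950223953920,
   4432408346624,
   68987912192,
   34632368128,
   4398585479168,
   68990009344,
   1180591620717681836032,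
   1125899908939776,
   35165044736,
   567348268367872,
   563018672898048,
   809500672,
   103081312256,
   72620543993446400,
   4398851817472,
   103347650560,
   1125899911036928,
   1077936128,
   137441050624,
   1346371584,
   137443147776,
   4399388688384,
   172067127296,
   206160527360,
   240520265728,
   309237645312,
   343597383680,
   343599480832]

theorem badK_eq : badL.map encL = badK := by decide +kernel

/-- end filling, or empty, or bad -/
noncomputable def sgB (r : List ℕ) : Bool :=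
  Bool.or (hasE (encL r)) (Bool.or (Nat.beq (encL r) 0) (memN (encL r) badK))

theorem bad_len : badL.all (fun r => Nat.blt r.length 64) = true := by decide +kernel

theorem sgB_spec {r : List ℕ} (h : sgB r = true) (hr : r.length < 64) :
    SG (r : Multiset ℕ) ∨ ∃ r' ∈ badL, (r' : Multiset ℕ) = (r : Multiset ℕ) := by
  have h' : (hasE (encL r) || (Nat.beq (encL r) 0 || memN (encL r) badK)) = true := h
  rw [Bool.or_eq_true, Bool.or_eq_true] at h'
  rcases h' with h1 | h1 | h1
  · exact Or.inl (SG_of_hasE h1 (by omega))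
  · left
    have h2 : encL r = encL [] := Nat.eq_of_beq_eq_true h1
    have h3 := (encL_inj h2 (by omega) (by simp)).eq_nil
    rw [h3]
    exact SG_zero
  · right
    have h2 := memN_spec h1
    rw [← badK_eq] at h2
    obtain ⟨r', hr', he⟩ := List.mem_map.1 h2
    have h3 := List.all_eq_true.1 bad_len r' hr'
    have h4 : r'.length < 64 := by simpa using h3
    exact ⟨r', hr', Multiset.coe_eq_coe.2 (encL_inj he (by omega) (by omega))⟩

/-- the property of the tile-free lists -/
noncomputable def qB (r : List ℕ) : Bool :=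
  Bool.and (openB r) (Bool.and (sgB r) (Nat.blt r.length 64))

theorem srch_ok : srch qB 40 tbl [] = true := by decide +kernel

theorem tbl_rows : tbl.map Prod.fst = [3, 4, 5, 6, 7, 8, 9, 10, 11, 12, 13, 14, 15, 16, 17] := rfl

theorem tbl_Pl : (tbl.all fun r => r.2.all fun t => Pl.contains (r.1 :: t)) = true := by
  decide +kernel

theorem Pl_ok : (Pl.all fun p => Bool.and (Nat.blt p.length 64) (tT.get (encL p)).isSome) = true := by
  decide +kernel

theorem Pl_tile : ∀ p ∈ Pl, ∃ k, Tile (p : Multiset ℕ) k := by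
  intro p hp
  have h := List.all_eq_true.1 Pl_ok p hp
  rw [Bool.and_eq_true] at h
  obtain ⟨D, hD⟩ := Option.isSome_iff_exists.1 h.2
  have h1 : p.length < 64 := by simpa using h.1
  exact ⟨_, Tile_of_get hD (by omega)⟩

theorem tbl_mem {x : ℕ} {ts : List (List ℕ)} (h : (x, ts) ∈ tbl) {t : List ℕ} (ht : t ∈ ts) :
    x :: t ∈ Pl := by
  have h1 := List.all_eq_true.1 (List.all_eq_true.1 tbl_Pl _ h) t ht
  simpa using h1

theorem tbl_row {x : ℕ} (h3 : 3 ≤ x) (h17 : x ≤ 17) : ∃ ts, (x, ts) ∈ tbl := by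
  have h : x ∈ tbl.map Prod.fst := by
    rw [tbl_rows]
    interval_cases x <;> simp
  obtain ⟨⟨y, ts⟩, h1, h2⟩ := List.mem_map.1 h
  exact ⟨ts, h2 ▸ h1⟩

/-- every multiset with parts from 3 to 17 consists of minimal tiles and a good remainder -/
theorem cov (S : Multiset ℕ) (hS : ∀ x ∈ S, 3 ≤ x ∧ x ≤ 17) :
    ∃ (r : List ℕ) (L : List (List ℕ)), (∀ p ∈ L, p ∈ Pl) ∧
      (r : Multiset ℕ) + (L.map (fun p : List ℕ => (p : Multiset ℕ))).sum = S ∧ r.length < 64 ∧
      openB r = true ∧ sgB r = true := by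
  induction hn : S.card using Nat.strong_induction_on generalizing S with
  | _ n ih =>
    by_cases hfree : ∃ x ts, (x, ts) ∈ tbl ∧ ∃ t ∈ ts, ((x :: t : List ℕ) : Multiset ℕ) ≤ S
    · obtain ⟨x, ts, hx, t, ht, hle⟩ := hfree
      obtain ⟨S', rfl⟩ := Multiset.le_iff_exists_add.1 hle
      obtain ⟨r, L, h1, h2, h3, h4, h5⟩ := ih S'.card (by
        rw [← hn, Multiset.card_add]
        simp) S' (fun y hy => hS y (Multiset.mem_add.2 (Or.inr hy))) rfl
      refine ⟨r, (x :: t) :: L, ?_, ?_, h3, h4, h5⟩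
      · intro p hp
        rcases List.mem_cons.1 hp with rfl | hp
        · exact tbl_mem hx ht
        · exact h1 p hp
      · rw [List.map_cons, List.sum_cons, ← h2]
        abel
    · have hs : ((S.sort (· ≤ ·)).reverse : Multiset ℕ) = S := by
        rw [Multiset.coe_reverse, Multiset.sort_eq]
      have h := srch_spec qB (S.sort (· ≤ ·)) 40 tbl [] srch_ok (Multiset.pairwise_sort _ _)
        (by decide +kernel)
        (fun x hx => by
          have h1 := hS x (by simpa using hx)
          exact tbl_row h1.1 h1.2)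
        (by
          intro x ts hx t ht hsub
          apply hfree
          refine ⟨x, ts, hx, t, ht, ?_⟩
          rw [← hs]
          rw [List.append_nil] at hsub
          exact hsub.subperm)
      rw [List.append_nil] at h
      have h' : (openB (S.sort (· ≤ ·)).reverse && (sgB (S.sort (· ≤ ·)).reverse &&
        Nat.blt (S.sort (· ≤ ·)).reverse.length 64)) = true := h
      rw [Bool.and_eq_true, Bool.and_eq_true] at h'
      refine ⟨(S.sort (· ≤ ·)).reverse, [], by simp, ?_, ?_, h'.1, h'.2.1⟩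
      · rw [hs]; simp
      · simpa using h'.2.2

end Pool.Agent.helper33.BE
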