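import Pool.Agent.helper33.BE.Defs

/-!
# Algebra of fillings and open fillings (MP_be123d)
-/

namespace Pool.Agent.helper33.BE

open Pool.Agent.helper9.SV

theorem pathSums_append (l : List ℤ) (x : ℤ) (r : List ℤ) :
    pathSums (l ++ x :: r) = pathSums (l ++ [x]) ++ pathSums (x :: r) := by
  induction l with
  | nil => simp [pathSums]
  | cons y l ih =>
    cases l with
    | nil => simp [pathSums]
    | cons z l =>
      simp only [List.cons_append, pathSums] at ih ⊢
      rw [ih]

theorem pathSums_reverse (l : List ℤ) : pathSums l.reverse = (pathSums l).reverse := by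
  induction l with
  | nil => simp [pathSums]
  | cons x l ih =>
    cases l with
    | nil => simp [pathSums]
    | cons y l =>
      have h1 : (x :: y :: l).reverse = l.reverse ++ y :: [x] := by simp
      have h2 : (y :: l).reverse = l.reverse ++ [y] := by simp
      rw [h1, pathSums_append, ← h2, ih]
      simp [pathSums, add_comm]

theorem cycSums_eq_pathSums (x : ℤ) (l : List ℤ) :
    cycSums (x :: l) = pathSums (x :: (l ++ [x])) := by
  have key : ∀ (l : List ℤ) (a x : ℤ),
      List.zipWith (· + ·) (a :: l) (l ++ [x]) = pathSums (a :: (l ++ [x])) := by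
    intro l
    induction l with
    | nil => intro a x; simp [pathSums]
    | cons b l ih =>
      intro a x
      have := ih b x
      simp only [List.cons_append, List.zipWith_cons_cons, pathSums] at this ⊢
      rw [← this]
  exact key l x x

theorem Fill.add {A A' S S' : Multiset ℤ} {T T' : Multiset ℕ} (h : Fill A S T)
    (h' : Fill A' S' T') : Fill (A + A') (S + S') (T + T') := by
  obtain ⟨cs, h1, h2, h3⟩ := h
  obtain ⟨cs', h1', h2', h3'⟩ := h'
  refine ⟨cs ++ cs', ?_, ?_, ?_⟩
  · rw [List.map_append, ← Multiset.coe_add, h1, h1']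
  · rw [List.flatten_append, ← Multiset.coe_add, h2, h2']
  · rw [List.map_append, List.flatten_append, ← Multiset.coe_add, h3, h3']

theorem OFill.symm {A S : Multiset ℤ} {T : Multiset ℕ} {u v : ℤ} {b : ℕ}
    (h : OFill A S T u v b) : OFill A S T v u b := by
  obtain ⟨cs, w, h1, h2, h3, h4, h5, h6⟩ := h
  refine ⟨cs, w.reverse, h1, by rw [List.length_reverse, h2], ?_, ?_, ?_, ?_⟩
  · rw [List.head?_reverse, h4]
  · rw [List.getLast?_reverse, h3]
  · rw [Multiset.coe_reverse, h5]
  · rw [pathSums_reverse, Multiset.coe_reverse, h6]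

theorem OFill.addFill {A A' S S' : Multiset ℤ} {T T' : Multiset ℕ} {u v : ℤ} {b : ℕ}
    (h : OFill A S T u v b) (h' : Fill A' S' T') :
    OFill (A + A') (S + S') (T + T') u v b := by
  obtain ⟨cs, w, h1, h2, h3, h4, h5, h6⟩ := h
  obtain ⟨cs', h1', h2', h3'⟩ := h'
  refine ⟨cs ++ cs', w, ?_, h2, h3, h4, ?_, ?_⟩
  · rw [List.map_append, ← Multiset.coe_add, h1, h1']
  · rw [List.flatten_append, ← Multiset.coe_add, h2', ← h5, add_right_comm]
  · rw [List.map_append, List.flatten_append, ← Multiset.coe_add, h3', ← h6, add_right_comm]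

theorem OFill.exch {A S : Multiset ℤ} {T : Multiset ℕ} {u v : ℤ} {b : ℕ}
    (h : OFill A S T u v b) (_hb : 1 ≤ b) (Z W : List ℤ) {u' v' : ℤ}
    (hu : W.head? = some u') (hv : W.getLast? = some v') :
    OFill (A + ((Z : Multiset ℤ) + (W : Multiset ℤ)))
      (S + ((pathSums (v :: Z ++ [u]) : Multiset ℤ) + (pathSums W : Multiset ℤ)))
      (T + {Z.length + b}) u' v' W.length := by
  obtain ⟨cs, w, h1, h2, h3, h4, h5, h6⟩ := h
  refine ⟨(w ++ Z) :: cs, W, ?_, rfl, hu, hv, ?_, ?_⟩
  · rw [List.map_cons, ← Multiset.cons_coe, h1, List.length_append, h2, add_comm b,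
      ← Multiset.singleton_add, add_comm]
  · rw [List.flatten_cons, ← Multiset.coe_add, ← Multiset.coe_add, ← h5]
    abel
  · rw [List.map_cons, List.flatten_cons, ← Multiset.coe_add, ← h6]
    have hcyc : cycSums (w ++ Z) = pathSums w ++ pathSums (v :: Z ++ [u]) := by
      rw [List.head?_eq_some_iff] at h3
      obtain ⟨w', hw'⟩ := h3
      rw [hw', List.cons_append, cycSums_eq_pathSums]
      rw [List.getLast?_eq_some_iff] at h4
      obtain ⟨w'', hw''⟩ := h4
      have h7 : u :: (w' ++ Z ++ [u]) = w'' ++ v :: (Z ++ [u]) := by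
        have : u :: (w' ++ Z ++ [u]) = (u :: w') ++ (Z ++ [u]) := by simp
        rw [this, ← hw', hw'']
        simp
      rw [h7, pathSums_append, ← hw'', hw', List.cons_append]
    rw [hcyc, ← Multiset.coe_add]
    abel

theorem OFill.close {A S : Multiset ℤ} {T : Multiset ℕ} {u v : ℤ} {b : ℕ}
    (h : OFill A S T u v b) (_hb : 1 ≤ b) (Z : List ℤ) :
    Fill (A + (Z : Multiset ℤ)) (S + (pathSums (v :: Z ++ [u]) : Multiset ℤ))
      (T + {Z.length + b}) := by
  obtain ⟨cs, w, h1, h2, h3, h4, h5, h6⟩ := h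
  refine ⟨(w ++ Z) :: cs, ?_, ?_, ?_⟩
  · rw [List.map_cons, ← Multiset.cons_coe, h1, List.length_append, h2, add_comm b,
      ← Multiset.singleton_add, add_comm]
  · rw [List.flatten_cons, ← Multiset.coe_add, ← Multiset.coe_add, ← h5]
    abel
  · rw [List.map_cons, List.flatten_cons, ← Multiset.coe_add, ← h6]
    have hcyc : cycSums (w ++ Z) = pathSums w ++ pathSums (v :: Z ++ [u]) := by
      rw [List.head?_eq_some_iff] at h3
      obtain ⟨w', hw'⟩ := h3
      rw [hw', List.cons_append, cycSums_eq_pathSums]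
      rw [List.getLast?_eq_some_iff] at h4
      obtain ⟨w'', hw''⟩ := h4
      have h7 : u :: (w' ++ Z ++ [u]) = w'' ++ v :: (Z ++ [u]) := by
        have : u :: (w' ++ Z ++ [u]) = (u :: w') ++ (Z ++ [u]) := by simp
        rw [this, ← hw', hw'']
        simp
      rw [h7, pathSums_append, ← hw'', hw', List.cons_append]
    rw [hcyc, ← Multiset.coe_add]
    abel

theorem OFill.extend {A S : Multiset ℤ} {T : Multiset ℕ} {u v : ℤ} {b : ℕ}
    (h : OFill A S T u v b) (_hb : 1 ≤ b) (U V : List ℤ) {u' v' : ℤ}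
    (hu : (u :: U).getLast? = some u') (hv : (v :: V).getLast? = some v') :
    OFill (A + ((U : Multiset ℤ) + (V : Multiset ℤ)))
      (S + ((pathSums (u :: U) : Multiset ℤ) + (pathSums (v :: V) : Multiset ℤ))) T u' v'
      (b + (U.length + V.length)) := by
  obtain ⟨cs, w, h1, h2, h3, h4, h5, h6⟩ := h
  rw [List.head?_eq_some_iff] at h3
  obtain ⟨w', hw'⟩ := h3
  rw [List.getLast?_eq_some_iff] at h4
  obtain ⟨w'', hw''⟩ := h4
  refine ⟨cs, U.reverse ++ (w ++ V), h1, ?_, ?_, ?_, ?_, ?_⟩
  · rw [List.length_append, List.length_reverse, List.length_append, h2]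
    omega
  · have : U.reverse ++ (w ++ V) = (u :: U).reverse ++ (w' ++ V) := by rw [hw']; simp
    rw [this, List.head?_append, List.head?_reverse, hu]
    rfl
  · have : U.reverse ++ (w ++ V) = (U.reverse ++ w'') ++ (v :: V) := by rw [hw'']; simp
    rw [this, List.getLast?_append, hv]
    rfl
  · rw [← Multiset.coe_add, ← Multiset.coe_add, Multiset.coe_reverse, ← h5]
    abel
  · have h7 : pathSums (U.reverse ++ (w ++ V)) =
        (pathSums (u :: U)).reverse ++ (pathSums w ++ pathSums (v :: V)) := by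
      have e1 : U.reverse ++ (w ++ V) = U.reverse ++ u :: (w' ++ V) := by rw [hw']; simp
      have e2 : u :: (w' ++ V) = w'' ++ v :: V := by
        rw [← List.cons_append, ← hw', hw'']; simp
      have e3 : U.reverse ++ [u] = (u :: U).reverse := by simp
      rw [e1, pathSums_append, e3, pathSums_reverse, e2, pathSums_append, ← hw'']
    rw [h7, ← Multiset.coe_add, ← Multiset.coe_add, Multiset.coe_reverse, ← h6]
    abel

end Pool.Agent.helper33.BE
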